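import Pool.Agent.K7.H47.FI.Move

/-!
# Project FI, job WB: column hubs and the bulk
-/

set_option autoImplicit false

namespace Pool.Agent.K7.H7.FI

open Pool.Agent.K7.H15.Irr Pool.Agent.K7.H12.FI Pool.Agent.K7.H47.FI

theorem err_succ (X V : Type) (q : ℕ) :
    err X V (q + 1) = err X V q * ((Nat.card X : ℝ) / (Nat.card V : ℝ)) := pow_succ _ _

/-- the vertices in the column hubs `w^h(j)` -/
theorem ncard_w_le {X : Type} [Finite X] (P : Par X) (S : Set (Vt P)) (j : Fin P.m)
    (hS : ∀ y ∈ S, ∃ h, y = ww h j) : S.ncard ≤ Nat.card X := by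
  classical
  have h1 : Set.InjOn (cl : Vt P → X) S := by
    intro y hy z hz hyz
    obtain ⟨h, rfl⟩ := hS y hy
    obtain ⟨h', rfl⟩ := hS z hz
    have : h = h' := Subtype.ext hyz
    rw [this]
  rw [← h1.ncard_image, ← Set.ncard_univ]
  exact Set.ncard_le_ncard (Set.subset_univ _) Set.finite_univ

theorem wb (hD : StDiff) (hC : StChain) (hS : StSplit) (hL : StLB1) (hZ : StSize) (hW : StW) :
    StWB := by
  classical
  intro X _ F hF h3
  obtain ⟨c, hc, A1, hL⟩ := hL X F hF h3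
  obtain ⟨C, hC0, A2, hZ⟩ := hZ X F hF h3
  obtain ⟨A3, hW⟩ := hW X F hF h3
  obtain ⟨A4, hA4⟩ := exists_nat_gt (2 * C / c)
  obtain ⟨A5, hA5⟩ := exists_nat_gt ((Nat.card X : ℝ) * C * (Nat.card X : ℝ) * 2 / c)
  refine ⟨A1 + A2 + A3 + A4 + A5 + 1, ?_⟩
  intro P h a B x hok g i j j'
  have hL := hL P h a B x (Ok.mono hok (by omega))
  obtain ⟨hm0, hn0, hbB, -, hn1, hn2, -, -, -, hsw, -, hmiss⟩ :=
    hZ P h a B x (Ok.mono hok (by omega))
  have hW := hW P h a B x (Ok.mono hok (by omega))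
  have haA := hok.ha
  have hbA := hok.hb
  have hBA := hok.hB
  have ha1 : 1 ≤ a := by omega
  have hbA' : A1 + A2 + A3 + A4 + A5 + 1 ≤ P.b := by
    refine le_trans ?_ hbA
    exact Nat.le_mul_of_pos_right _ (by positivity)
  have hB1 : 1 ≤ B := by
    refine le_trans ?_ hBA
    have : 0 < (A1 + A2 + A3 + A4 + A5 + 1) * a * P.b := by
      have : 0 < P.b := by omega
      positivity
    omega
  have hmb : P.b ≤ P.m := le_trans (Nat.le_mul_of_pos_right _ hB1) hbB
  -- the smallest column hub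
  let z0 : Fin P.m := ⟨0, hm0⟩
  have step1 : D F (gph F P h) (ww g j') ≤ D F (gph F P h) (ww g z0) := by
    by_cases hj : j' = z0
    · rw [hj]
    · refine le_of_lt (hW g z0 j' ?_)
      rw [Fin.lt_def]
      have : (j' : ℕ) ≠ 0 := fun h0 => hj (Fin.ext h0)
      show 0 < (j' : ℕ)
      omega
  refine lt_of_le_of_lt step1 ?_
  -- the last column
  let zl : Fin P.m := ⟨P.m - 1, by omega⟩
  obtain ⟨g', hgg', -⟩ := hok.Rex g
  have hr : 0 < P.r g'.1 := by
    rw [hok.hr g']
    have := (hok.hx g').1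
    positivity
  have nbw : ∀ y : Vt P, y ∈ nb (gph F P h) (ww g z0) ↔
      (img F P.ρ h).underlying.Adj g.1 (cl y) ∧ ¬ Mis P (.w 0) (lab y) := fun y =>
    adj_iff F P h (ww g z0) y
  have nbb : ∀ y : Vt P, y ∈ nb (gph F P h) (bk g i j) ↔
      (img F P.ρ h).underlying.Adj g.1 (cl y) ∧ ¬ Mis P (.bulk i j) (lab y) := fun y =>
    adj_iff F P h (bk g i j) y
  have hext : ∀ y : Vt P, y ∈ nb (gph F P h) (ww g z0) → y ∉ nb (gph F P h) (bk g i j) →
      y = ww y.1 j ∧ (j : ℕ) + 2 ≤ P.m := by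
    intro y hy hy'
    rw [nbw] at hy
    rw [nbb] at hy'
    have hy2 : Mis P (.bulk i j) (lab y) := by
      by_contra hcon
      exact hy' ⟨hy.1, hcon⟩
    have hy1 := hy.2
    obtain ⟨q, (⟨i1, j1⟩ | ⟨⟨c1, l1⟩ | j1⟩)⟩ := y
    · exact absurd hy2 (by simp [lab, Mis])
    · exact absurd (show Mis P (.w 0) (lab ⟨q, Sum.inr (Sum.inl (c1, l1))⟩) by simp [lab, Mis]) hy1
    · have e1 : (j : ℕ) = (j1 : ℕ) := hy2
      have e2 : ¬ (P.m < 0 + (j1 : ℕ) + 2) := hy1
      refine ⟨?_, by omega⟩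
      have : j = j1 := Fin.ext e1
      rw [this]
      rfl
  have hsub : ((nb (gph F P h) (ww g z0) \ nb (gph F P h) (bk g i j)).ncard : ℝ) ≤ Nat.card X := by
    exact_mod_cast ncard_w_le P (nb (gph F P h) (ww g z0) \ nb (gph F P h) (bk g i j)) j
      (fun y hy => ⟨y.1, (hext y hy.1 hy.2).1⟩)
  have hnpos : (0 : ℝ) < Nat.card (Vt P) := by exact_mod_cast hn0
  have hk : (0 : ℝ) < Nat.card X := by
    have : 0 < Nat.card X := by omega
    exact_mod_cast this
  refine move_lt hD hC hS F (img F P.ρ h) cl (gph F P h) (over_gph F P h) (ww g z0) (bk g i j)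
    ?_ rfl (fun y => ww y.1 zl) (bk g' ⟨0, hr⟩ z0) (c * err X (Vt P) 2) (C * (a + P.m)) ?_ ?_ ?_ ?_
    ?_ ?_ ?_ ?_
  · intro he
    have := congrArg (lab (P := P)) he
    simp [lab, ww, bk] at this
  · intro y hy hy'
    obtain ⟨e1, e2⟩ := hext y hy hy'
    rw [nbw] at hy
    refine ⟨?_, ?_, rfl⟩
    · rw [nbb]
      refine ⟨hy.1, ?_⟩
      show ¬ ((j : ℕ) = P.m - 1)
      omega
    · rw [nbw]
      rintro ⟨-, h4⟩
      apply h4
      show P.m < 0 + (P.m - 1) + 2
      omega
  · intro y hy z hz hyz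
    obtain ⟨e1, -⟩ := hext y hy.1 hy.2
    obtain ⟨e2, -⟩ := hext z hz.1 hz.2
    have hyz' : (ww y.1 zl : Vt P) = ww z.1 zl := hyz
    have h1 : (ww y.1 zl : Vt P).1 = (ww z.1 zl : Vt P).1 := by rw [hyz']
    have h2 : y.1 = z.1 := h1
    rw [e1, e2, h2]
  · rw [nbb]
    exact ⟨hgg', fun h4 => h4⟩
  · rw [nbw]
    rintro ⟨-, h4⟩
    apply h4
    show (0 : ℕ) = 0
    rfl
  · intro y _ _ he
    have := congrArg (lab (P := P)) he
    simp [lab, ww, bk] at this
  · refine hL _ _ _ _ ?_ rfl hgg' (Set.mem_insert _ _) ?_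
    · intro he
      have := congrArg (lab (P := P)) he
      simp [lab, ww, bk] at this
    · have h4 := hmiss (ww g z0)
      have h5 := hmiss (bk g i j)
      have hsub2 : {y : Vt P | (∃ g i j, y = bk g i j) ∧
          (img F P.ρ h).underlying.Adj (cl (ww g z0)) (cl y) ∧
          y ∉ insert (bk g' ⟨0, hr⟩ z0)
            (nb (gph F P h) (ww g z0) ∩ nb (gph F P h) (bk g i j) ∪
              (fun y : Vt P => ww y.1 zl) ''
                (nb (gph F P h) (ww g z0) \ nb (gph F P h) (bk g i j)))} ⊆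
          {u : Vt P | (img F P.ρ h).underlying.Adj (cl (ww g z0)) (cl u) ∧
            (∃ g i j, u = bk g i j) ∧ u ∉ nb (gph F P h) (ww g z0)} ∪
          {u : Vt P | (img F P.ρ h).underlying.Adj (cl (bk g i j)) (cl u) ∧
            (∃ g i j, u = bk g i j) ∧ u ∉ nb (gph F P h) (bk g i j)} := by
        rintro y ⟨h6, h7, h8⟩
        by_cases h9 : y ∈ nb (gph F P h) (ww g z0)
        · refine Or.inr ⟨h7, h6, fun h10 => h8 ?_⟩
          exact Or.inr (Or.inl ⟨h9, h10⟩)
        · exact Or.inl ⟨h7, h6, h9⟩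
      have h6 := (Set.ncard_le_ncard hsub2 (Set.toFinite _)).trans (Set.ncard_union_le _ _)
      have h7 : (P.b : ℝ) * B ≤ P.m := by exact_mod_cast hbB
      have h8 : (a : ℝ) * P.m ≤ Nat.card (Vt P) := by
        have := hn2
        push_cast at this
        exact this
      have h9 : 2 * C ≤ c * P.b := by
        have : (A4 : ℝ) ≤ P.b := by
          have : A4 ≤ P.b := by omega
          exact_mod_cast this
        rw [div_lt_iff₀ hc] at hA4
        nlinarith
      have ha' : (0 : ℝ) ≤ a := by positivity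
      have hB' : (0 : ℝ) ≤ B := by positivity
      calc _ ≤ (((({u : Vt P | (img F P.ρ h).underlying.Adj (cl (ww g z0)) (cl u) ∧
            (∃ g i j, u = bk g i j) ∧ u ∉ nb (gph F P h) (ww g z0)} : Set (Vt P)).ncard +
            ({u : Vt P | (img F P.ρ h).underlying.Adj (cl (bk g i j)) (cl u) ∧
            (∃ g i j, u = bk g i j) ∧ u ∉ nb (gph F P h) (bk g i j)} : Set (Vt P)).ncard : ℕ)) : ℝ) := by
              exact_mod_cast h6
        _ ≤ 2 * C * (a * B) := by push_cast; linarith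
        _ ≤ (c * P.b) * (a * B) := mul_le_mul_of_nonneg_right h9 (by positivity)
        _ = c * (a * (P.b * B)) := by ring
        _ ≤ c * (a * P.m) := by gcongr
        _ ≤ c * Nat.card (Vt P) := by gcongr
  · intro y hy hy'
    obtain ⟨e1, -⟩ := hext y hy hy'
    have h4 := hsw y.1 j zl
    rw [← e1] at h4
    refine h4.trans ?_
    have h5 : |((j : ℕ) : ℝ) - ((zl : ℕ) : ℝ)| ≤ P.m := by
      have h6 : ((j : ℕ) : ℝ) ≤ P.m := by exact_mod_cast j.2.le
      have h7 : ((zl : ℕ) : ℝ) ≤ P.m := by exact_mod_cast zl.2.le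
      rw [abs_le]
      constructor
      · have : (0 : ℝ) ≤ ((j : ℕ) : ℝ) := by positivity
        linarith
      · have : (0 : ℝ) ≤ ((zl : ℕ) : ℝ) := by positivity
        linarith
    gcongr
  · rw [err_succ X (Vt P) 2]
    have he2 : 0 < err X (Vt P) 2 := by unfold err; positivity
    have ha0 : (0 : ℝ) < a := by exact_mod_cast ha1
    have hmr : (0 : ℝ) < P.m := by exact_mod_cast hm0
    have h8 : (a : ℝ) * P.m ≤ Nat.card (Vt P) := by
      have := hn2
      push_cast at this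
      exact this
    have hA5a : (A5 : ℝ) ≤ a := by
      have : A5 ≤ a := by omega
      exact_mod_cast this
    have hA5m : (A5 : ℝ) ≤ P.m := by
      have : A5 ≤ P.m := by omega
      exact_mod_cast this
    have hA5' : (Nat.card X : ℝ) * C * (Nat.card X : ℝ) * 2 < c * A5 := by
      rw [div_lt_iff₀ hc] at hA5
      linarith
    have key : (Nat.card X : ℝ) * (C * (a + P.m)) * (Nat.card X : ℝ) < c * Nat.card (Vt P) := by
      have h9 : ((Nat.card X : ℝ) * C * (Nat.card X : ℝ) * 2) * (a * P.m) <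
          (c * A5) * (a * P.m) := mul_lt_mul_of_pos_right hA5' (by positivity)
      have h10 : (A5 : ℝ) * (a + P.m) ≤ 2 * (a * P.m) := by nlinarith
      -- multiply by A5
      have h11 : (Nat.card X : ℝ) * C * (Nat.card X : ℝ) * ((A5 : ℝ) * (a + P.m)) ≤
          (Nat.card X : ℝ) * C * (Nat.card X : ℝ) * (2 * (a * P.m)) :=
        mul_le_mul_of_nonneg_left h10 (by positivity)
      have h12 : (A5 : ℝ) * ((Nat.card X : ℝ) * (C * (a + P.m)) * (Nat.card X : ℝ)) <
          A5 * (c * (a * P.m)) := by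
        calc _ = (Nat.card X : ℝ) * C * (Nat.card X : ℝ) * ((A5 : ℝ) * (a + P.m)) := by ring
          _ ≤ _ := h11
          _ = ((Nat.card X : ℝ) * C * (Nat.card X : ℝ) * 2) * (a * P.m) := by ring
          _ < _ := h9
          _ = A5 * (c * (a * P.m)) := by ring
      have h13 := lt_of_mul_lt_mul_left h12 (by positivity)
      exact h13.trans_le (by gcongr)
    have h14 : (Nat.card X : ℝ) * (C * (a + P.m)) * ((Nat.card X : ℝ) / Nat.card (Vt P)) < c := by
      rw [← mul_div_assoc, div_lt_iff₀ hnpos]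
      exact key
    have hq : (0 : ℝ) ≤ (Nat.card X : ℝ) / Nat.card (Vt P) := by positivity
    have hK : (0 : ℝ) ≤ C * (a + P.m) := by positivity
    calc _ ≤ (Nat.card X : ℝ) * (C * (a + P.m)) *
          (err X (Vt P) 2 * ((Nat.card X : ℝ) / Nat.card (Vt P))) := by gcongr
      _ = ((Nat.card X : ℝ) * (C * (a + P.m)) * ((Nat.card X : ℝ) / Nat.card (Vt P))) *
          err X (Vt P) 2 := by ring
      _ < c * err X (Vt P) 2 := mul_lt_mul_of_pos_right h14 he2

end Pool.Agent.K7.H7.FI
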